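import Mathlib

/-! A finite family of orthogonal matrices with a small exponential moment of the trace form. -/

namespace Pool.Agent.P.MP_ef347d_lc.Sp

open Matrix

variable {d : ℕ}

lemma vmv (x y z : Fin d → ℝ) : vecMulVec x y *ᵥ z = (y ⬝ᵥ z) • x := by
  ext i
  simp only [mulVec, dotProduct, vecMulVec_apply, Pi.smul_apply, smul_eq_mul, Finset.sum_mul]
  exact Finset.sum_congr rfl fun j _ => by ring

lemma house {u v : Fin d → ℝ} (hu : u ⬝ᵥ u = 1) (hv : v ⬝ᵥ v = 1) :
    ∃ U : Matrix (Fin d) (Fin d) ℝ, U * Uᵀ = 1 ∧ U *ᵥ u = v ∧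
      ∀ x, (u - v) ⬝ᵥ x = 0 → U *ᵥ x = x := by
  by_cases h : u = v
  · exact ⟨1, by simp, by simp [h], by simp⟩
  have hw : (u - v) ⬝ᵥ (u - v) ≠ 0 := fun h0 => h (sub_eq_zero.1 (dotProduct_self_eq_zero.1 h0))
  have h2 : (u - v) ⬝ᵥ (u - v) = 2 * ((u - v) ⬝ᵥ u) := by
    simp only [sub_dotProduct, dotProduct_sub, hu, hv, dotProduct_comm v u]
    ring
  refine ⟨1 - (2 / ((u - v) ⬝ᵥ (u - v))) • vecMulVec (u - v) (u - v), ?_, ?_, fun x hx => ?_⟩
  · generalize u - v = w at hw
    simp only [transpose_sub, transpose_one, transpose_smul, transpose_vecMulVec,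
      Matrix.mul_sub, Matrix.sub_mul, Matrix.one_mul, Matrix.mul_one, Matrix.mul_smul,
      Matrix.smul_mul, vecMulVec_mul_vecMulVec, vecMulVec_smul, smul_smul, smul_sub]
    rw [sub_sub, ← sub_smul, ← add_smul]
    convert sub_zero _
    convert zero_smul ℝ _
    field_simp
    ring
  · rw [sub_mulVec, one_mulVec, smul_mulVec, vmv, smul_smul]
    have : 2 / ((u - v) ⬝ᵥ (u - v)) * ((u - v) ⬝ᵥ u) = 1 := by
      rw [div_mul_eq_mul_div, ← h2, div_self hw]
    rw [this, one_smul, sub_sub_cancel]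
  · rw [sub_mulVec, one_mulVec, smul_mulVec, vmv, hx]
    simp

/-- normalised signs on the coordinates up to `J` -/
noncomputable def sv (J : Fin d) (ε : Fin d → Bool) : Fin d → ℝ :=
  fun k => if k ≤ J then (if ε k then 1 else -1) / √((J.val : ℝ) + 1) else 0

lemma sv_unit (J : Fin d) (ε : Fin d → Bool) : sv J ε ⬝ᵥ sv J ε = 1 := by
  have hJ : (0 : ℝ) < (J.val : ℝ) + 1 := by positivity
  have h1 : ∀ k, sv J ε k * sv J ε k = if k ≤ J then 1 / ((J.val : ℝ) + 1) else 0 := by
    intro k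
    unfold sv
    by_cases hk : k ≤ J
    · simp only [hk, if_true]
      rw [div_mul_div_comm, Real.mul_self_sqrt hJ.le]
      cases ε k <;> simp
    · simp [hk]
  simp only [dotProduct, h1]
  rw [← Finset.sum_filter, Finset.sum_const]
  have : (Finset.univ.filter fun k : Fin d => k ≤ J) = Finset.Iic J := by ext; simp
  rw [this, Fin.card_Iic, nsmul_eq_mul]
  push_cast
  field_simp

lemma sv_avg (J : Fin d) (a : Fin d → ℝ) :
    ∑ ε : Fin d → Bool, Real.exp (a ⬝ᵥ sv J ε) ≤
      Fintype.card (Fin d → Bool) * Real.exp (a ⬝ᵥ a / ((J.val : ℝ) + 1) / 2) := by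
  have hJ : (0 : ℝ) < (J.val : ℝ) + 1 := by positivity
  set g : Fin d → Bool → ℝ := fun k b =>
    Real.exp (a k * if k ≤ J then (if b then 1 else -1) / √((J.val : ℝ) + 1) else 0) with hg
  have h1 : ∀ ε : Fin d → Bool, Real.exp (a ⬝ᵥ sv J ε) = ∏ k, g k (ε k) := fun ε => by
    rw [dotProduct, Real.exp_sum]; rfl
  have h2 := Finset.prod_univ_sum (fun _ : Fin d => (Finset.univ : Finset Bool)) g
  rw [Fintype.piFinset_univ] at h2
  simp only [h1]
  rw [← h2]
  have h3 : ∀ k, ∑ b, g k b ≤ 2 * Real.exp (a k * a k / ((J.val : ℝ) + 1) / 2) := by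
    intro k
    rw [Fintype.sum_bool]
    by_cases hk : k ≤ J
    · have h4 := Real.cosh_le_exp_half_sq (a k / √((J.val : ℝ) + 1))
      rw [Real.cosh_eq, div_pow, Real.sq_sqrt hJ.le, sq] at h4
      simp only [hg, hk, if_true, Bool.false_eq_true, if_false]
      have e1 : a k * (1 / √((J.val : ℝ) + 1)) = a k / √((J.val : ℝ) + 1) := by ring
      have e2 : a k * (-1 / √((J.val : ℝ) + 1)) = -(a k / √((J.val : ℝ) + 1)) := by ring
      rw [e1, e2]
      linarith
    · simp only [hg, hk, if_false, mul_zero, Real.exp_zero]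
      have : 1 ≤ Real.exp (a k * a k / ((J.val : ℝ) + 1) / 2) :=
        Real.one_le_exp (by have := mul_self_nonneg (a k); positivity)
      linarith
  calc ∏ k, ∑ b, g k b ≤ ∏ k : Fin d, 2 * Real.exp (a k * a k / ((J.val : ℝ) + 1) / 2) :=
        Finset.prod_le_prod (fun k _ => Finset.sum_nonneg fun b _ => (Real.exp_pos _).le)
          fun k _ => h3 k
    _ = _ := by
        rw [Finset.prod_mul_distrib, ← Real.exp_sum, dotProduct, Finset.sum_div, Finset.sum_div]
        simp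

lemma row_orth {M U : Matrix (Fin d) (Fin d) ℝ} (hU : U * Uᵀ = 1) (i : Fin d) :
    (M * U) i ⬝ᵥ (M * U) i = M i ⬝ᵥ M i := by
  have h : (M * U) i = M i ᵥ* U := rfl
  rw [h, ← dotProduct_mulVec, ← mulVec_transpose, mulVec_mulVec, hU, one_mulVec]

lemma diag_eq (M O : Matrix (Fin d) (Fin d) ℝ) (i : Fin d) :
    (M * O) i i = M i ⬝ᵥ (O *ᵥ Pi.single i 1) := by
  simp [mul_apply, dotProduct]

theorem fam (d j : ℕ) (hj : j ≤ d) : ∃ (Ω : Type) (_ : Fintype Ω) (_ : Nonempty Ω)
    (O : Ω → Matrix (Fin d) (Fin d) ℝ), (∀ ω, O ω * (O ω)ᵀ = 1) ∧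
    (∀ ω (i : Fin d), j ≤ i.val → O ω *ᵥ Pi.single i 1 = Pi.single i 1) ∧
    ∀ (q : ℝ) (M : Matrix (Fin d) (Fin d) ℝ), (∀ i, M i ⬝ᵥ M i ≤ q) →
      ∑ ω, Real.exp (∑ i : Fin d with i.val < j, (M * O ω) i i) ≤
        Fintype.card Ω * Real.exp (q * harmonic j / 2) := by
  induction j with
  | zero => exact ⟨Unit, inferInstance, inferInstance, fun _ => 1, by simp,
      fun _ _ _ => one_mulVec _, by simp⟩
  | succ j ih =>
    obtain ⟨Ω, _, _, O, h1, h2, h3⟩ := ih (by omega)
    set J : Fin d := ⟨j, hj⟩ with hJ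
    have hu : (Pi.single J 1 : Fin d → ℝ) ⬝ᵥ Pi.single J 1 = 1 := by simp
    choose U hU1 hU2 hU3 using fun ε => house hu (sv_unit J ε)
    refine ⟨(Fin d → Bool) × Ω, inferInstance, inferInstance, fun p => U p.1 * O p.2,
      fun p => ?_, fun p i hi => ?_, fun q M hM => ?_⟩
    · rw [transpose_mul, Matrix.mul_assoc, ← Matrix.mul_assoc (O p.2), h1, Matrix.one_mul, hU1]
    · rw [← mulVec_mulVec, h2 _ _ (by omega)]
      apply hU3
      have hi' : ¬ i ≤ J := by rw [Fin.le_def]; simp only [hJ]; omega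
      have hne : i ≠ J := fun e => hi' e.le
      simp [sv, hi', hne]
    · have hs : (Finset.univ.filter fun i : Fin d => i.val < j + 1) =
          insert J (Finset.univ.filter fun i : Fin d => i.val < j) := by
        ext i
        simp only [Finset.mem_filter, Finset.mem_univ, true_and, Finset.mem_insert, Fin.ext_iff, hJ]
        omega
      have hn : J ∉ (Finset.univ.filter fun i : Fin d => i.val < j) := by simp [hJ]
      have e1 : ∀ ε ω, (M * U ε * O ω) J J = M J ⬝ᵥ sv J ε := fun ε ω => by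
        rw [Matrix.mul_assoc, diag_eq, ← mulVec_mulVec, h2 _ _ le_rfl, hU2]
      rw [Fintype.sum_prod_type]
      simp only [hs, Finset.sum_insert hn, e1, Real.exp_add, ← Finset.mul_sum, ← Matrix.mul_assoc]
      have hq : M J ⬝ᵥ M J / ((J.val : ℝ) + 1) / 2 ≤ q / ((j : ℝ) + 1) / 2 := by
        have := hM J
        simp only [hJ] at this ⊢
        gcongr
      calc ∑ ε, Real.exp (M J ⬝ᵥ sv J ε) *
            ∑ ω, Real.exp (∑ i : Fin d with i.val < j, (M * U ε * O ω) i i)
          ≤ ∑ ε, Real.exp (M J ⬝ᵥ sv J ε) * (Fintype.card Ω * Real.exp (q * harmonic j / 2)) := by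
            refine Finset.sum_le_sum fun ε _ => mul_le_mul_of_nonneg_left ?_ (Real.exp_pos _).le
            exact h3 q _ fun i => by rw [row_orth (hU1 ε)]; exact hM i
        _ ≤ (Fintype.card (Fin d → Bool) * Real.exp (q / ((j : ℝ) + 1) / 2)) *
            (Fintype.card Ω * Real.exp (q * harmonic j / 2)) := by
            rw [← Finset.sum_mul]
            refine mul_le_mul_of_nonneg_right ((sv_avg J (M J)).trans ?_) (by positivity)
            gcongr
        _ = _ := by
            rw [Fintype.card_prod, harmonic_succ, mul_mul_mul_comm, ← Real.exp_add]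
            push_cast
            congr 2
            ring

theorem fam_trace (d : ℕ) : ∃ (Ω : Type) (_ : Fintype Ω) (_ : Nonempty Ω)
    (O : Ω → Matrix (Fin d) (Fin d) ℝ), (∀ ω, O ω * (O ω)ᵀ = 1) ∧
    ∀ (q : ℝ) (M : Matrix (Fin d) (Fin d) ℝ), 0 ≤ q → (∀ i, M i ⬝ᵥ M i ≤ q) →
      ∑ ω, Real.exp (M * O ω).trace ≤ Fintype.card Ω * Real.exp (q * (1 + Real.log d) / 2) := by
  obtain ⟨Ω, _, _, O, h1, -, h3⟩ := fam d d le_rfl
  refine ⟨Ω, inferInstance, inferInstance, O, h1, fun q M hq hM => ?_⟩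
  have h4 := h3 q M hM
  simp only [Fin.is_lt, Finset.filter_true] at h4
  refine le_trans h4 ?_
  have := harmonic_le_one_add_log d
  gcongr

end Pool.Agent.P.MP_ef347d_lc.Sp
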