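import Pool.Agent.P.MP_ef347d_lc.Sp.Shift
import Pool.Agent.P.MP_ef347d_lc.Speed
import Pool.Agent.P.MP_ef347d_lc.Main

/-! Expected running time for centres of bounded operator norm. -/

namespace Pool.Agent.P.MP_ef347d_lc.Sp

open Matrix MeasureTheory ProbabilityTheory
open scoped ENNReal

theorem final_op {F : MF} (hF : Driver F) (hS : Sound F)
    (hB : ∀ (m n t : ℕ) (D : Idx m n → ℝ), 2 ^ (m + 1) ≤ t → 0 < F m n (env D t) 0 0) (t₀ : ℕ)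
    (hT : ∀ m n t : ℕ, 1 ≤ m → 1 ≤ n → t₀ ≤ t → NN m n ≤ 2 ^ t → ∀ s : ℝ, 0 < s → 1 / 2 ^ t ≤ s →
      s ≤ 1 → 12 * (s⁻¹ ^ 4 * (1 + Real.log (m * n))) ≤ (t : ℝ) → ∀ D₀ : Idx m n → ℝ,
      (∀ x, (dA D₀ *ᵥ x) ⬝ᵥ (dA D₀ *ᵥ x) ≤ x ⬝ᵥ x) → db D₀ ⬝ᵥ db D₀ ≤ 1 → dc D₀ ⬝ᵥ dc D₀ ≤ 1 →
      gam (Idx m n) {Z | ¬ 0 < F m n (env (D₀ + s • Z) t) 0 0} ≤
        ENNReal.ofReal (11 * Real.exp (-(t : ℝ) / 4))) :
    ∃ (prog : Cmd) (C : ℝ) (k₁ k₂ : ℕ),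
      (∀ (m n : ℕ) (D : Idx m n → ℝ), ∃ σ T, Exec m n ((m + n + 3) ^ 4) prog (input D) σ T ∧
        Solves D σ) ∧
      ∀ m n : ℕ, 1 ≤ m → 1 ≤ n → ∀ s : ℝ, 0 < s → s ≤ 1 → ∀ D₀ : Idx m n → ℝ,
        (∀ x, (dA D₀ *ᵥ x) ⬝ᵥ (dA D₀ *ᵥ x) ≤ x ⬝ᵥ x) → db D₀ ⬝ᵥ db D₀ ≤ 1 → dc D₀ ⬝ᵥ dc D₀ ≤ 1 →
        ∃ time : (Idx m n → ℝ) → ENNReal, Measurable time ∧
          (∀ D σ T, Exec m n ((m + n + 3) ^ 4) prog (input D) σ T → (T : ENNReal) ≤ time D) ∧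
          ∫⁻ Z, time (D₀ + s • Z) ∂(Measure.pi fun _ : Idx m n => gaussianReal 0 1) ≤
            ENNReal.ofReal (C * s⁻¹ ^ k₁ * (1 + Real.log (m * n)) ^ k₂) := by
  classical
  obtain ⟨c, C, e, hc⟩ := hF
  set K := ∑' t : ℕ, ((C * (t + 1) ^ e : ℕ) : ℝ≥0∞) *
    ENNReal.ofReal (11 * Real.exp (-(t : ℝ) / 4)) with hK
  have hKt : K ≠ ⊤ := Fin_.sum_ne_top C e
  refine ⟨c, C * (t₀ + 17) ^ e + K.toReal, 4 * e, e, fun m n D => ?_, ?_⟩
  · obtain ⟨t, -, -, h3, σ, steps, h4, -, h5, h6⟩ :=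
      hc m n D (max (Nat.clog 2 (NN m n)) (2 ^ (m + 1))) (le_max_left _ _)
        (hB _ _ _ _ (le_max_right _ _))
    refine ⟨σ, steps, h4, Fin_.solves ?_ ?_ (hS m n D t h3)⟩
    · rw [h5, outOf, dif_pos (by unfold NN; omega)]
      rfl
    · intro j
      rw [h6, outOf, dif_pos (by have := j.2; unfold NN; omega)]
  intro m n hm hn s hs hs1 D₀ hD1 hD2 hD3
  have hmn : (1 : ℝ) ≤ m * n := by exact_mod_cast Nat.mul_pos hm hn
  have hL : (1 : ℝ) ≤ 1 + Real.log (m * n) := by linarith [Real.log_nonneg hmn]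
  have hs2 : (1 : ℝ) ≤ s⁻¹ := (one_le_inv₀ hs).2 hs1
  have hsi : (1 : ℝ) ≤ s⁻¹ ^ 4 := one_le_pow₀ hs2
  set X := s⁻¹ ^ 4 * (1 + Real.log (m * n)) with hX
  have hX1 : 1 ≤ X := one_le_mul_of_one_le_of_one_le hsi hL
  set u := t₀ + Nat.clog 2 (NN m n) + ⌈12 * X⌉₊ with hu
  set A : ℕ → Set (Idx m n → ℝ) := fun t =>
    toMeasurable (gam (Idx m n)) {Z | ¬ 0 < F m n (env (D₀ + s • Z) t) 0 0} with hA
  have hAm : ∀ t, MeasurableSet (A t) := fun t => measurableSet_toMeasurable _ _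
  set φ : (Idx m n → ℝ) → (Idx m n → ℝ) := fun D => s⁻¹ • (D - D₀) with hφ
  have hφm : Measurable φ := by
    rw [hφ]; fun_prop
  have hφ1 : ∀ Z, φ (D₀ + s • Z) = Z := fun Z => by
    simp only [hφ, add_sub_cancel_left, smul_smul, inv_mul_cancel₀ hs.ne', one_smul]
  have hφ2 : ∀ D, D₀ + s • φ D = D := fun D => by
    simp only [hφ, smul_smul, mul_inv_cancel₀ hs.ne', one_smul, add_sub_cancel]
  set g : (Idx m n → ℝ) → ℝ≥0∞ := fun Z => ((C * u ^ e : ℕ) : ℝ≥0∞) +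
    ∑' i : ℕ, (A (u + i)).indicator (fun _ => ((C * (u + i + 1) ^ e : ℕ) : ℝ≥0∞)) Z with hg
  have hgi : ∀ i : ℕ, Measurable
      ((A (u + i)).indicator fun _ => ((C * (u + i + 1) ^ e : ℕ) : ℝ≥0∞)) := fun i =>
    measurable_const.indicator (hAm _)
  have hgm : Measurable g := measurable_const.add (Measurable.ennreal_tsum hgi)
  refine ⟨fun D => g (φ D), hgm.comp hφm, fun D σ T hE => ?_, ?_⟩
  · have hex : ∃ i, 0 < F m n (env D (u + i)) 0 0 := ⟨2 ^ (m + 1), hB _ _ _ _ (by omega)⟩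
    obtain ⟨t, -, -, -, σ', steps, h4, h5, -⟩ :=
      hc m n D (u + Nat.find hex) (by omega) (Nat.find_spec hex)
    obtain ⟨-, rfl⟩ := Fin_.det hE h4
    rcases hi : Nat.find hex with _ | i
    · rw [hi] at h5
      refine le_trans ?_ le_self_add
      exact_mod_cast h5
    · have hf := Nat.find_min hex (m := i) (by omega)
      have hm : φ D ∈ A (u + i) := subset_toMeasurable _ _ (by
        rw [Set.mem_ofPred_eq, hφ2]; exact hf)
      rw [hi] at h5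
      refine le_trans ?_ (le_trans (ENNReal.le_tsum i) le_add_self)
      rw [Set.indicator_of_mem hm]
      exact_mod_cast h5
  · simp only [hφ1]
    have hAb : ∀ t, u ≤ t → gam (Idx m n) (A t) ≤ ENNReal.ofReal (11 * Real.exp (-(t : ℝ) / 4)) := by
      intro t ht
      rw [hA, measure_toMeasurable]
      have h4 : 12 * X ≤ (t : ℝ) :=
        (Nat.le_ceil _).trans (by exact_mod_cast (by omega : ⌈12 * X⌉₊ ≤ t))
      refine hT m n t hm hn (by omega) ?_ s hs ?_ hs1 h4 D₀ hD1 hD2 hD3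
      · exact (Nat.le_pow_clog (by norm_num) _).trans
          (Nat.pow_le_pow_right (by norm_num) (by omega))
      · have h5 : (t : ℝ) ≤ 2 ^ t := by exact_mod_cast Nat.lt_two_pow_self.le
        have h6 : s⁻¹ ≤ s⁻¹ ^ 4 := le_self_pow₀ hs2 (by norm_num)
        have h7 : s⁻¹ ^ 4 ≤ X := le_mul_of_one_le_right (by linarith) hL
        rw [one_div]
        exact inv_le_of_inv_le₀ hs (by linarith)
    have huX : (u : ℝ) ≤ (t₀ + 17) * X := by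
      have a1 := Fin_.clog_le hm hn
      have a2 : (⌈12 * X⌉₊ : ℝ) ≤ 12 * X + 1 := (Nat.ceil_lt_add_one (by positivity)).le
      have a4 : 1 + Real.log (m * n) ≤ X := le_mul_of_one_le_left (by linarith) hsi
      have a6 : (t₀ : ℝ) ≤ t₀ * X := le_mul_of_one_le_right (by positivity) hX1
      rw [hu]
      push_cast
      linarith
    calc ∫⁻ Z, g Z ∂gam (Idx m n) = ((C * u ^ e : ℕ) : ℝ≥0∞) +
          ∑' i : ℕ, ((C * (u + i + 1) ^ e : ℕ) : ℝ≥0∞) * gam (Idx m n) (A (u + i)) := by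
          rw [hg, lintegral_add_left measurable_const, lintegral_tsum fun i => (hgi i).aemeasurable]
          simp only [lintegral_const, measure_univ, mul_one, lintegral_indicator_const (hAm _)]
      _ ≤ ((C * u ^ e : ℕ) : ℝ≥0∞) + K := by
          gcongr
          refine le_trans (ENNReal.tsum_le_tsum fun i => ?_)
            (ENNReal.tsum_comp_le_tsum_of_injective (add_right_injective u) _)
          exact mul_le_mul_right (hAb (u + i) (by omega)) _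
      _ = ENNReal.ofReal (((C * u ^ e : ℕ) : ℝ) + K.toReal) := by
          rw [ENNReal.ofReal_add (by positivity) ENNReal.toReal_nonneg, ENNReal.ofReal_natCast,
            ENNReal.ofReal_toReal hKt]
      _ ≤ _ := by
          refine ENNReal.ofReal_le_ofReal ?_
          have b1 : (u : ℝ) ^ e ≤ (t₀ + 17) ^ e * X ^ e := by
            rw [← mul_pow]; gcongr
          have b2 : 1 ≤ X ^ e := one_le_pow₀ hX1
          have b3 : K.toReal ≤ K.toReal * X ^ e := le_mul_of_one_le_right ENNReal.toReal_nonneg b2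
          have b4 : (C : ℝ) * u ^ e ≤ C * ((t₀ + 17) ^ e * X ^ e) := by gcongr
          rw [mul_assoc, pow_mul, ← mul_pow, ← hX]
          push_cast
          linarith

/-- Combined Frobenius norm at most one gives the three bounds on the centre. -/
theorem frob_op {m n : ℕ} {D : Idx m n → ℝ} (h : D ⬝ᵥ D ≤ 1) :
    (∀ x, (dA D *ᵥ x) ⬝ᵥ (dA D *ᵥ x) ≤ x ⬝ᵥ x) ∧ db D ⬝ᵥ db D ≤ 1 ∧ dc D ⬝ᵥ dc D ≤ 1 := by
  have h1 : ((dA D)ᵀ * dA D).trace = ∑ i, dA D i ⬝ᵥ dA D i := by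
    rw [trace_mul_comm]; rfl
  have h2 : 0 ≤ ∑ i, dA D i ⬝ᵥ dA D i := Finset.sum_nonneg fun i _ => dot_nonneg _
  have h3 := dot_nonneg (db D)
  have h4 := dot_nonneg (dc D)
  rw [dot_split, h1] at h
  refine ⟨fun x => ?_, by linarith, by linarith⟩
  calc (dA D *ᵥ x) ⬝ᵥ (dA D *ᵥ x) = ∑ i, (dA D i ⬝ᵥ x) ^ 2 :=
        Finset.sum_congr rfl fun i _ => (sq _).symm
    _ ≤ ∑ i, (dA D i ⬝ᵥ dA D i) * (x ⬝ᵥ x) := Finset.sum_le_sum fun i _ => cs _ _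
    _ ≤ _ := by
        rw [← Finset.sum_mul]
        exact mul_le_of_le_one_left (dot_nonneg x) (by linarith)

theorem main_op :
    ∃ (prog : Cmd) (C : ℝ) (k₁ k₂ : ℕ),
      (∀ (m n : ℕ) (D : Idx m n → ℝ), ∃ σ T, Exec m n ((m + n + 3) ^ 4) prog (input D) σ T ∧
        Solves D σ) ∧
      ∀ m n : ℕ, 1 ≤ m → 1 ≤ n → ∀ s : ℝ, 0 < s → s ≤ 1 → ∀ D₀ : Idx m n → ℝ,
        (∀ x, (dA D₀ *ᵥ x) ⬝ᵥ (dA D₀ *ᵥ x) ≤ x ⬝ᵥ x) → db D₀ ⬝ᵥ db D₀ ≤ 1 → dc D₀ ⬝ᵥ dc D₀ ≤ 1 →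
        ∃ time : (Idx m n → ℝ) → ENNReal, Measurable time ∧
          (∀ D σ T, Exec m n ((m + n + 3) ^ 4) prog (input D) σ T → (T : ENNReal) ≤ time D) ∧
          ∫⁻ Z, time (D₀ + s • Z) ∂(Measure.pi fun _ : Idx m n => gaussianReal 0 1) ≤
            ENNReal.ofReal (C * s⁻¹ ^ k₁ * (1 + Real.log (m * n)) ^ k₂) := by
  obtain ⟨F, hF, hs, hg, hb⟩ := solver_all_of orc orc_comp (solver_opt orc orc_comp) solver_brute
  obtain ⟨t₀, ht⟩ := good_tail orc (orc_tail speed_tail)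
  refine final_op (machine_main hF.toPM) hs hb (t₀ + 13)
    fun m n t hm hn h1 h2 s h0 h3 h4 h5 D₀ hA hb' hc => ?_
  refine le_trans (measure_mono ?_)
    (fail_op hm hn h0 h4 hA hb' hc h5 (ht m n t hm hn (by omega) h2 s h3 h4))
  exact fun Z hZ hG => hZ (hg m n t _ (by omega) hn hG)

end Pool.Agent.P.MP_ef347d_lc.Sp
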