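import Pool.Agent.P.MP_ef347d_lc.OrcOK

/-! The event `Good` is invariant under rotations of the variables. -/

namespace Pool.Agent.P.MP_ef347d_lc.Sp

open Matrix MeasureTheory ProbabilityTheory OrcOK

variable {N M d m n : ℕ}

lemma lift_inc (hd : d ≤ N) (Q : Matrix (Fin d) (Fin d) ℝ) :
    lift N Q * inc N d = inc N d * Q := by
  simp only [lift, Matrix.add_mul, Matrix.sub_mul, Matrix.one_mul, Matrix.mul_assoc, incT_inc hd,
    Matrix.mul_one]
  abel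

lemma lift_T (Q : Matrix (Fin d) (Fin d) ℝ) : (lift N Q)ᵀ = lift N Qᵀ := by
  simp only [lift, transpose_add, transpose_sub, transpose_mul, transpose_transpose,
    transpose_one, Matrix.mul_assoc]

lemma incT_lift' (hd : d ≤ N) (Q : Matrix (Fin d) (Fin d) ℝ) :
    (inc N d)ᵀ * lift N Q = Q * (inc N d)ᵀ := by
  have := congrArg transpose (lift_inc hd Qᵀ)
  rwa [transpose_mul, transpose_mul, lift_T, transpose_transpose] at this

lemma lift_mask (hd : d ≤ N) (Q : Matrix (Fin d) (Fin d) ℝ) :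
    lift N Q * (1 - inc N d * (inc N d)ᵀ) = 1 - inc N d * (inc N d)ᵀ := by
  rw [Matrix.mul_sub, ← Matrix.mul_assoc, lift_inc hd, Matrix.mul_one, lift]
  abel

lemma mask_lift (hd : d ≤ N) (Q : Matrix (Fin d) (Fin d) ℝ) :
    (1 - inc N d * (inc N d)ᵀ) * lift N Q = 1 - inc N d * (inc N d)ᵀ := by
  rw [Matrix.sub_mul, Matrix.mul_assoc, incT_lift' hd, Matrix.one_mul, lift, Matrix.mul_assoc]
  abel

lemma lift_orth (hd : d ≤ N) {Q : Matrix (Fin d) (Fin d) ℝ} (hQ : Q * Qᵀ = 1) :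
    lift N Q * (lift N Q)ᵀ = 1 := by
  rw [lift_T]
  nth_rewrite 1 [lift]
  rw [Matrix.add_mul, mask_lift hd, Matrix.mul_assoc, incT_lift' hd, Matrix.mul_assoc,
    ← Matrix.mul_assoc Q, hQ, Matrix.one_mul]
  abel

lemma pad_mul (hd : d ≤ N) (A : Matrix (Fin M) (Fin d) ℝ) (Q : Matrix (Fin d) (Fin d) ℝ) :
    pad (N := N) (A * Q) = pad A * lift N Q := by
  rw [pad_eq, pad_eq]
  simp only [Matrix.mul_assoc, incT_lift' hd]

lemma gramInv_mul (hd : d ≤ N) (G : Matrix (Fin N) (Fin N) ℝ) {Q : Matrix (Fin d) (Fin d) ℝ}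
    (hQ : Q * Qᵀ = 1) : gramInv (G * lift N Q) d = (lift N Q)ᵀ * gramInv G d * lift N Q := by
  have h1 := lift_orth hd hQ
  have h2 : (lift N Q)ᵀ * lift N Q = 1 := mul_eq_one_comm.mp h1
  have h3 : (G * lift N Q)ᵀ * (G * lift N Q) + (1 - rmask N d) =
      (lift N Q)ᵀ * (Gᵀ * G + (1 - rmask N d)) * lift N Q := by
    rw [Matrix.mul_add, Matrix.add_mul, ← inc_incT, lift_T, lift_mask hd, mask_lift hd,
      transpose_mul, lift_T]
    simp only [Matrix.mul_assoc]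
  rw [gramInv, gramInv, h3, Matrix.mul_inv_rev, Matrix.mul_inv_rev, inv_eq_right_inv h1,
    inv_eq_right_inv h2, Matrix.mul_assoc]

lemma orc_mul {t : ℕ} (hd : d ≤ N) (A : Matrix (Fin M) (Fin d) ℝ) {Q : Matrix (Fin d) (Fin d) ℝ}
    (hQ : Q * Qᵀ = 1) : (orc N t M d (A * Q)).1 = Qᵀ *ᵥ (orc N t M d A).1 ∧
      (orc N t M d (A * Q)).2 = (orc N t M d A).2 := by
  have h1 := lift_orth hd hQ
  have e1 : ∀ X : Matrix (Fin N) (Fin N) ℝ, lift N Q * ((lift N Q)ᵀ * X) = X := fun X => by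
    rw [← Matrix.mul_assoc, h1, Matrix.one_mul]
  have h2 : gramInv (pad (N := N) (A * Q)) d * (pad (A * Q))ᵀ =
      (lift N Q)ᵀ * (gramInv (pad A) d * (pad A)ᵀ) := by
    rw [pad_mul hd, gramInv_mul hd _ hQ, transpose_mul]
    simp only [Matrix.mul_assoc, e1]
  have h3 : pad (N := N) (A * Q) * gramInv (pad (A * Q)) d * (pad (A * Q))ᵀ =
      pad A * gramInv (pad A) d * (pad A)ᵀ := by
    rw [Matrix.mul_assoc, h2, pad_mul hd]
    simp only [Matrix.mul_assoc, e1]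
  refine ⟨?_, ?_⟩
  · simp only [orc, h3, h2]
    rw [← inc_mulVec, ← inc_mulVec, ← inc_T, ← mulVec_mulVec, lift_T, incT_lift hd]
  · simp only [orc, h3]

lemma T_zero {A : Matrix (Fin M) (Fin d) ℝ} {Q : Matrix (Fin d) (Fin d) ℝ} (hQ : Q * Qᵀ = 1)
    {y : Fin M → ℝ} (h : (A * Q)ᵀ *ᵥ y = 0) : Aᵀ *ᵥ y = 0 := by
  have := congrArg (fun w => Q *ᵥ w) h
  simpa only [transpose_mul, mulVec_mulVec, ← Matrix.mul_assoc, hQ, Matrix.one_mul,
    mulVec_zero] using this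

lemma ok_mul {t : ℕ} (hd : d ≤ N) {A : Matrix (Fin M) (Fin d) ℝ} {Q : Matrix (Fin d) (Fin d) ℝ}
    (hQ : Q * Qᵀ = 1) (h : orc.OK N t (A * Q)) : orc.OK N t A := by
  obtain ⟨h1, h2⟩ := orc_mul (t := t) hd A hQ
  rcases h with h | h
  · left
    intro i
    have := h i
    rwa [h1, mulVec_mulVec, Matrix.mul_assoc, hQ, Matrix.mul_one] at this
  · right
    unfold Orc.Dua at h
    rw [h2] at h
    exact ⟨h.1, T_zero hQ h.2⟩

lemma nodual_mul {A : Matrix (Fin M) (Fin d) ℝ} {Q : Matrix (Fin d) (Fin d) ℝ}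
    (h : NoDual (A * Q)) : NoDual A := by
  rintro ⟨y, hy, h0⟩
  exact h ⟨y, hy, by rw [transpose_mul, ← mulVec_mulVec, h0, mulVec_zero]⟩

lemma unit_mul {A : Matrix (Fin M) (Fin d) ℝ} {Q : Matrix (Fin d) (Fin d) ℝ}
    (h : IsUnit ((A * Q)ᵀ * (A * Q)).det) : IsUnit (Aᵀ * A).det := by
  have : (A * Q)ᵀ * (A * Q) = Qᵀ * (Aᵀ * A) * Q := by
    simp only [transpose_mul, Matrix.mul_assoc]
  rw [this, det_mul, det_mul] at h
  exact isUnit_of_mul_isUnit_right (isUnit_of_mul_isUnit_left h)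

lemma nopri_mul {A : Matrix (Fin M) (Fin d) ℝ} {Q : Matrix (Fin d) (Fin d) ℝ} (hQ : Q * Qᵀ = 1)
    (h : ¬ ∃ x, ∀ i, 0 < ((A * Q) *ᵥ x) i) : ¬ ∃ x, ∀ i, 0 < (A *ᵥ x) i := by
  rintro ⟨x, hx⟩
  exact h ⟨Qᵀ *ᵥ x, by rwa [mulVec_mulVec, Matrix.mul_assoc, hQ, Matrix.mul_one]⟩

/-- the data with given parts -/
def mk (A : Matrix (Fin m) (Fin n) ℝ) (b : Fin m → ℝ) (c : Fin n → ℝ) : Idx m n → ℝ :=
  Sum.elim (fun p => A p.1 p.2) (Sum.elim b c)

/-- rotation of the variables -/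
def act (Q : Matrix (Fin n) (Fin n) ℝ) (D : Idx m n → ℝ) : Idx m n → ℝ :=
  mk (dA D * Q) (db D) (Qᵀ *ᵥ dc D)

lemma dA_act (Q : Matrix (Fin n) (Fin n) ℝ) (D : Idx m n → ℝ) : dA (act Q D) = dA D * Q := rfl

lemma db_act (Q : Matrix (Fin n) (Fin n) ℝ) (D : Idx m n → ℝ) : db (act Q D) = db D := rfl

lemma dc_act (Q : Matrix (Fin n) (Fin n) ℝ) (D : Idx m n → ℝ) : dc (act Q D) = Qᵀ *ᵥ dc D := rfl

lemma dot_split (D D' : Idx m n → ℝ) :
    D ⬝ᵥ D' = ((dA D)ᵀ * dA D').trace + db D ⬝ᵥ db D' + dc D ⬝ᵥ dc D' := by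
  simp only [dotProduct, Fintype.sum_sum_type, Fintype.sum_prod_type, trace, diag_apply, mul_apply,
    transpose_apply, dA, db, dc, of_apply, add_assoc]
  rw [Finset.sum_comm]

lemma act_adj (Q : Matrix (Fin n) (Fin n) ℝ) (D D' : Idx m n → ℝ) :
    act Q D ⬝ᵥ D' = D ⬝ᵥ act Qᵀ D' := by
  rw [dot_split, dot_split, dA_act, dA_act, db_act, db_act, dc_act, dc_act, transpose_mul,
    Matrix.mul_assoc, trace_mul_comm, Matrix.mul_assoc, transpose_transpose, mulVec_transpose,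
    ← dotProduct_mulVec]

lemma act_act {Q : Matrix (Fin n) (Fin n) ℝ} (hQ : Q * Qᵀ = 1) (D : Idx m n → ℝ) :
    act Qᵀ (act Q D) = D := by
  rw [act, dA_act, db_act, dc_act, Matrix.mul_assoc, hQ, transpose_transpose, mulVec_mulVec, hQ,
    Matrix.mul_one, one_mulVec]
  funext a
  rcases a with p | i | j <;> rfl

lemma act_iso {Q : Matrix (Fin n) (Fin n) ℝ} (hQ : Q * Qᵀ = 1) (D : Idx m n → ℝ) :
    act Q D ⬝ᵥ act Q D = D ⬝ᵥ D := by
  rw [act_adj, act_act hQ]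

lemma act_add (Q : Matrix (Fin n) (Fin n) ℝ) (D D' : Idx m n → ℝ) :
    act Q (D + D') = act Q D + act Q D' := by
  funext a
  rcases a with p | i | j
  · simp [act, mk, mul_apply, dA, add_mul, Finset.sum_add_distrib]
  · rfl
  · simp [act, mk, mulVec, dotProduct, dc, mul_add, Finset.sum_add_distrib]

lemma act_smul (Q : Matrix (Fin n) (Fin n) ℝ) (c : ℝ) (D : Idx m n → ℝ) :
    act Q (c • D) = c • act Q D := by
  funext a
  rcases a with p | i | j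
  · simp [act, mk, mul_apply, dA, Finset.mul_sum, mul_assoc]
  · rfl
  · simp [act, mk, mulVec, dotProduct, dc, Finset.mul_sum, mul_left_comm]

lemma act_mp {Q : Matrix (Fin n) (Fin n) ℝ} (hQ : Q * Qᵀ = 1) :
    MeasurePreserving (act (m := m) Q) (gam (Idx m n)) (gam (Idx m n)) :=
  gam_map (⟨⟨act Q, act_add Q⟩, act_smul Q⟩ : (Idx m n → ℝ) →ₗ[ℝ] (Idx m n → ℝ)) (act Qᵀ)
    (act_adj Q) fun w => act_iso (by rw [transpose_transpose]; exact mul_eq_one_comm.mp hQ) w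

lemma G1_act (t : ℕ) (Q : Matrix (Fin (nS m n t)) (Fin (nS m n t)) ℝ) (D : Idx m n → ℝ) :
    G1 t (act (lift n Q) D) = G1 t D * Q := by
  have hd : nS m n t ≤ n := Nat.min_le_left _ _
  have key : ∀ x : Fin n → ℝ, ∀ j, (x ᵥ* lift n Q) (Fin.castLE hd j) =
      ∑ k, x (Fin.castLE hd k) * Q k j := by
    intro x j
    rw [← mulVec_transpose, ← incT_mulVec hd ((lift n Q)ᵀ *ᵥ x) j, lift_T, incT_lift hd]
    show ∑ k, Q k j * ((inc n (nS m n t))ᵀ *ᵥ x) k = _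
    exact Finset.sum_congr rfl fun k _ => by rw [incT_mulVec hd x k, mul_comm]
  ext i j
  simp only [G1, mul_apply, of_apply]
  split_ifs with h
  · simp only [neg_mul, Finset.sum_neg_distrib]
    congr 1
    exact key (dA D ⟨i.val, h⟩) j
  · rw [dc_act, mulVec_transpose]
    exact key _ j

lemma G2_act (t : ℕ) (Q : Matrix (Fin n) (Fin n) ℝ) (D : Idx m n → ℝ) :
    G2 t (act Q D) = G2 t D * Q := rfl

lemma G3_inc (t : ℕ) (D : Idx m n → ℝ) : G3 t D * inc (n + 1) n = G2 t D := by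
  ext i j
  have := incT_mulVec (Nat.le_succ n) (G3 t D i) j
  rw [mulVec_transpose] at this
  refine this.trans ?_
  simp [G3]

lemma G3_act (t : ℕ) (Q : Matrix (Fin n) (Fin n) ℝ) (D : Idx m n → ℝ) :
    G3 t (act Q D) = G3 t D * lift (n + 1) Q := by
  ext i j
  by_cases h : j.val < n
  · have h1 : G3 t D * lift (n + 1) Q * inc (n + 1) n = G2 t D * Q := by
      rw [Matrix.mul_assoc, lift_inc (Nat.le_succ n), ← Matrix.mul_assoc, G3_inc]
    have h2 := incT_mulVec (Nat.le_succ n) ((G3 t D * lift (n + 1) Q) i) ⟨j.val, h⟩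
    rw [mulVec_transpose] at h2
    have h3 := congrFun (congrFun h1 i) ⟨j.val, h⟩
    have h4 : G3 t (act Q D) i j = (G2 t D * Q) i ⟨j.val, h⟩ := by
      simp only [G3, of_apply, dif_pos h, G2_act]
    rw [h4, ← h3]
    exact h2
  · have h2 := lift_out (N := n + 1) (R := Qᵀ) (G3 t D i) h
    rw [← lift_T, mulVec_transpose] at h2
    refine Eq.trans ?_ h2.symm
    simp only [G3, of_apply, dif_neg h]
    rfl

lemma Gu_act {Q : Matrix (Fin n) (Fin n) ℝ} (hQ : Q * Qᵀ = 1) (u : ℝ) (D : Idx m n → ℝ) :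
    mat (Gu u (act Q D)) = mat (Gu u D) * Q := by
  have h1 : dA (act Q D) *ᵥ dc (act Q D) = dA D *ᵥ dc D := by
    rw [dA_act, dc_act, mulVec_mulVec, Matrix.mul_assoc, hQ, Matrix.mul_one]
  have h2 : dc (act Q D) ⬝ᵥ dc (act Q D) = dc D ⬝ᵥ dc D := by
    rw [dc_act, mulVec_transpose, ← dotProduct_mulVec, ← mulVec_transpose, mulVec_mulVec, hQ,
      one_mulVec]
  have h3 : ∀ j, dc (act Q D) j = ∑ k, dc D k * Q k j := fun j => by
    rw [dc_act, mulVec_transpose]; rfl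
  ext i j
  simp only [mat, of_apply, mul_apply, Gu, h1, h2, db_act]
  split_ifs with h
  · rw [h3, dA_act, mul_apply]
    simp only [Finset.mul_sum, Finset.sum_div, ← Finset.sum_neg_distrib, ← Finset.sum_add_distrib]
    exact Finset.sum_congr rfl fun k _ => by ring
  · exact h3 j

lemma sq_trace (H : Matrix (Fin n) (Fin n) ℝ) : ∑ i, ∑ j, H i j ^ 2 = (Hᵀ * H).trace := by
  simp only [trace, diag_apply, mul_apply, transpose_apply, sq]
  rw [Finset.sum_comm]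

lemma nondeg_act {Q : Matrix (Fin n) (Fin n) ℝ} (hQ : Q * Qᵀ = 1) {η : ℝ} {D : Idx m n → ℝ}
    (h : NonDeg η (act Q D)) : NonDeg η D := by
  obtain ⟨h1, h2, h3⟩ := h
  rw [act_iso hQ] at h1
  rw [dc_act, mulVec_transpose, ← dotProduct_mulVec, ← mulVec_transpose, mulVec_mulVec, hQ,
    one_mulVec] at h2
  refine ⟨h1, h2, fun e => ?_⟩
  obtain ⟨h4, h5⟩ := h3 e
  have e1 : (dA (act Q D)).submatrix e id = (dA D).submatrix e id * Q := rfl
  rw [e1] at h4 h5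
  rw [det_mul] at h4
  refine ⟨isUnit_of_mul_isUnit_left h4, fun H x y hH hx hy => ?_⟩
  have e2 : dA (act Q D) *ᵥ (Qᵀ *ᵥ x) = dA D *ᵥ x := by
    rw [dA_act, mulVec_mulVec, Matrix.mul_assoc, hQ, Matrix.mul_one]
  have h6 := h5 (Qᵀ * H) (Qᵀ *ᵥ x) y
    (by rw [Matrix.mul_inv_rev, inv_eq_right_inv hQ, hH])
    (by rw [hx, mulVec_mulVec]; rfl)
    (by rw [hy, dc_act, transpose_mul, transpose_transpose, mulVec_mulVec, Matrix.mul_assoc, hQ,
      Matrix.mul_one])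
  have e3 : ((Qᵀ * H)ᵀ * (Qᵀ * H)) = Hᵀ * H := by
    rw [transpose_mul, transpose_transpose, Matrix.mul_assoc, ← Matrix.mul_assoc Q, hQ,
      Matrix.one_mul]
  simp only [Feasible, e2, db_act, sq_trace, e3] at h6 ⊢
  exact h6

lemma good_act {t : ℕ} {j : ℕ} (hj : j ≤ n) {Q : Matrix (Fin j) (Fin j) ℝ} (hQ : Q * Qᵀ = 1)
    (hj' : mS m n t = m → j = nS m n t) {D : Idx m n → ℝ} (h : Good orc t (act (lift n Q) D)) :
    Good orc t D := by
  have hL := lift_orth hj hQ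
  have hL3 := lift_orth (Nat.le_succ n) hL
  have n1 : n ≤ NN m n := by unfold NN; omega
  have n3 : n + 1 ≤ NN m n := by unfold NN; omega
  obtain ⟨h1, h2⟩ := h
  rw [G3_act] at h1 h2
  refine ⟨fun hm => ?_, fun hm => ?_⟩
  · obtain ⟨a, b, c⟩ := h1 hm
    exact ⟨ok_mul n3 hL3 a, unit_mul b, nopri_mul hL3 c⟩
  · obtain rfl := hj' hm
    obtain ⟨a, b, c⟩ := h2 hm
    rw [G1_act] at a b
    refine ⟨ok_mul (hj.trans n1) hQ a, fun h => nodual_mul (b h), fun h h' => ?_⟩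
    obtain ⟨c1, c2, c3, c4, c5⟩ := c h h'
    rw [G2_act] at c1 c2
    refine ⟨ok_mul n1 hL c1, fun h => nodual_mul (c2 h), fun h => ⟨ok_mul n3 hL3 (c3 h).1,
      unit_mul (c3 h).2⟩, nondeg_act hL c4, fun k hk => ?_⟩
    have := c5 k hk
    rw [Gu_act hL] at this
    exact ok_mul n1 hL this

end Pool.Agent.P.MP_ef347d_lc.Sp
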