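import Pool.Agent.P.MP_ef347d_lc.Gauss

/-! Change of measure for a finite mixture of shifted Gaussians. -/

namespace Pool.Agent.P.MP_ef347d_lc.Sp

open Matrix MeasureTheory ProbabilityTheory

variable {ι : Type} [Fintype ι]

lemma gd_shift (z v : ι → ℝ) : gd (z - v) = gd z * Real.exp (v ⬝ᵥ z - v ⬝ᵥ v / 2) := by
  simp only [gd, mul_assoc, ← Real.exp_add, sub_dotProduct, dotProduct_sub, dotProduct_comm z v]
  congr 2; ring

lemma gd_two (z v w : ι → ℝ) : Real.exp (v ⬝ᵥ w) * gd (z - (v + w)) =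
    gd z * (Real.exp (v ⬝ᵥ z - v ⬝ᵥ v / 2) * Real.exp (w ⬝ᵥ z - w ⬝ᵥ w / 2)) := by
  rw [gd_shift, mul_left_comm, ← Real.exp_add, ← Real.exp_add]
  congr 2
  simp only [add_dotProduct, dotProduct_add, dotProduct_comm w v]
  ring

lemma mix_point {Ω : Type} [Fintype Ω] [Nonempty Ω] (v : Ω → ι → ℝ) {l : ℝ} (hl : 0 < l)
    (z : ι → ℝ) : ∑ ω, gd (z - v ω) ≤ Fintype.card Ω * l * gd z +
      ∑ p : Ω × Ω, Real.exp (v p.1 ⬝ᵥ v p.2) / (l * Fintype.card Ω) * gd (z - (v p.1 + v p.2)) := by
  have hN : (0 : ℝ) < Fintype.card Ω := by exact_mod_cast Fintype.card_pos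
  set x : Ω → ℝ := fun ω => Real.exp (v ω ⬝ᵥ z - v ω ⬝ᵥ v ω / 2) with hx
  have e1 : ∑ ω, gd (z - v ω) = gd z * ∑ ω, x ω := by
    rw [Finset.mul_sum]
    exact Finset.sum_congr rfl fun ω _ => gd_shift _ _
  have e2 : ∑ p : Ω × Ω, Real.exp (v p.1 ⬝ᵥ v p.2) / (l * Fintype.card Ω) *
      gd (z - (v p.1 + v p.2)) = gd z * ((∑ ω, x ω) * (∑ ω, x ω) / (l * Fintype.card Ω)) := by
    rw [Finset.sum_mul_sum, ← Fintype.sum_prod_type', Finset.sum_div, Finset.mul_sum]
    refine Finset.sum_congr rfl fun p _ => ?_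
    rw [div_mul_eq_mul_div, gd_two, mul_div_assoc]
  rw [e1, e2]
  generalize ∑ ω, x ω = S
  have hg := gd_pos z
  have hL : 0 < l * Fintype.card Ω := by positivity
  have : S ≤ l * Fintype.card Ω + S * S / (l * Fintype.card Ω) := by
    generalize l * Fintype.card Ω = L at hL
    rw [← sub_le_iff_le_add', le_div_iff₀ hL]
    nlinarith [sq_nonneg (S - L), sq_nonneg S, mul_pos hL hL]
  calc gd z * S ≤ gd z * (l * Fintype.card Ω + S * S / (l * Fintype.card Ω)) :=
        mul_le_mul_of_nonneg_left this hg.le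
    _ = _ := by ring

lemma shift_eq (v : ι → ℝ) {E : Set (ι → ℝ)} (hE : MeasurableSet E) :
    gam ι {z | z + v ∈ E} = ∫⁻ z, ENNReal.ofReal (gd (z - v)) * E.indicator 1 z := by
  have hs : MeasurableSet {z | z + v ∈ E} := (measurable_add_const v) hE
  rw [← lintegral_indicator_one hs, lintegral_gam (measurable_one.indicator hs),
    ← lintegral_add_right_eq_self (μ := volume)
      (fun z => ENNReal.ofReal (gd (z - v)) * E.indicator 1 z) v]
  simp only [add_sub_cancel_right]
  rfl

theorem gam_mix {Ω : Type} [Fintype Ω] [Nonempty Ω] (v : Ω → ι → ℝ) (E : Set (ι → ℝ)) {l : ℝ}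
    (hl : 0 < l) {p : ENNReal} (hp : ∀ ω, p ≤ gam ι {z | z + v ω ∈ E}) {B : ℝ}
    (hB : ∑ q : Ω × Ω, Real.exp (v q.1 ⬝ᵥ v q.2) ≤ Fintype.card Ω * (Fintype.card Ω * B)) :
    p ≤ ENNReal.ofReal l * gam ι E + ENNReal.ofReal (B / l) := by
  have hN : (0 : ℝ) < Fintype.card Ω := by exact_mod_cast Fintype.card_pos
  set E' := toMeasurable (gam ι) E
  have hE' : MeasurableSet E' := measurableSet_toMeasurable _ _
  rw [← measure_toMeasurable E]
  have hm : ∀ w : ι → ℝ, Measurable fun z => ENNReal.ofReal (gd (z - w)) := fun w =>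
    meas_gd.comp (measurable_sub_const w)
  have hI : Measurable (E'.indicator (1 : (ι → ℝ) → ENNReal)) := measurable_one.indicator hE'
  have hG : Measurable fun z => ENNReal.ofReal (gd z) * E'.indicator 1 z := meas_gd.mul hI
  have hsub : ∀ ω, {z | z + v ω ∈ E} ⊆ {z | z + v ω ∈ E'} := fun ω z hz =>
    subset_toMeasurable (gam ι) E (a := z + v ω) hz
  have key : (Fintype.card Ω : ENNReal) * p ≤ (Fintype.card Ω : ENNReal) *
      (ENNReal.ofReal l * gam ι E' + ENNReal.ofReal (B / l)) := by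
    calc (Fintype.card Ω : ENNReal) * p = ∑ _ω : Ω, p := by simp
      _ ≤ ∑ ω, ∫⁻ z, ENNReal.ofReal (gd (z - v ω)) * E'.indicator 1 z :=
          Finset.sum_le_sum fun ω _ => (hp ω).trans (le_trans (measure_mono (hsub ω))
            (shift_eq (v ω) hE').le)
      _ = ∫⁻ z, ∑ ω, ENNReal.ofReal (gd (z - v ω)) * E'.indicator 1 z :=
          (lintegral_finsetSum _ fun ω _ => (hm _).mul hI).symm
      _ ≤ ∫⁻ z, (ENNReal.ofReal (Fintype.card Ω * l) * (ENNReal.ofReal (gd z) * E'.indicator 1 z) +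
            ∑ q : Ω × Ω, ENNReal.ofReal (Real.exp (v q.1 ⬝ᵥ v q.2) / (l * Fintype.card Ω)) *
              ENNReal.ofReal (gd (z - (v q.1 + v q.2)))) := by
          apply lintegral_mono
          intro z
          by_cases hz : z ∈ E'
          · simp only [hz, Set.indicator_of_mem, Pi.one_apply, mul_one]
            have h0 : ∀ q : Ω × Ω, 0 ≤ Real.exp (v q.1 ⬝ᵥ v q.2) / (l * Fintype.card Ω) :=
              fun q => by positivity
            simp only [← ENNReal.ofReal_mul (h0 _)]
            rw [← ENNReal.ofReal_mul (by positivity),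
              ← ENNReal.ofReal_sum_of_nonneg fun ω _ => (gd_pos _).le,
              ← ENNReal.ofReal_sum_of_nonneg fun q _ => mul_nonneg (h0 q) (gd_pos _).le,
              ← ENNReal.ofReal_add (mul_pos (mul_pos hN hl) (gd_pos _)).le
                (Finset.sum_nonneg fun q _ => mul_nonneg (h0 q) (gd_pos _).le)]
            exact ENNReal.ofReal_le_ofReal (mix_point v hl z)
          · simp [hz]
      _ = ENNReal.ofReal (Fintype.card Ω * l) * gam ι E' +
            ∑ q : Ω × Ω, ENNReal.ofReal (Real.exp (v q.1 ⬝ᵥ v q.2) / (l * Fintype.card Ω)) := by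
          rw [lintegral_add_left (hG.const_mul _), lintegral_const_mul _ hG, ← lintegral_gam hI,
            lintegral_indicator_one hE',
            lintegral_finsetSum _ fun q _ => (hm _).const_mul _]
          congr 1
          refine Finset.sum_congr rfl fun q _ => ?_
          rw [lintegral_const_mul _ (hm _),
            lintegral_sub_right_eq_self (μ := volume) (fun z => ENNReal.ofReal (gd z)),
            lintegral_gd, mul_one]
      _ ≤ _ := by
          rw [mul_add, ← mul_assoc, ENNReal.ofReal_mul hN.le, ENNReal.ofReal_natCast,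
            ← ENNReal.ofReal_sum_of_nonneg fun q _ => by positivity]
          refine add_le_add le_rfl ?_
          rw [← ENNReal.ofReal_natCast, ← ENNReal.ofReal_mul hN.le]
          refine ENNReal.ofReal_le_ofReal ?_
          rw [← Finset.sum_div, div_le_iff₀ (by positivity)]
          refine hB.trans (le_of_eq ?_)
          field_simp
  exact (ENNReal.mul_le_mul_iff_right (by simp) (by simp)).1 key

end Pool.Agent.P.MP_ef347d_lc.Sp
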