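import Pool.Agent.P.MP_ef347d_lc.Sp.Fam
import Pool.Agent.P.MP_ef347d_lc.Sp.Mix
import Pool.Agent.P.MP_ef347d_lc.Sp.Inv

/-! The failure probability of one round for a centre of bounded operator norm. -/

namespace Pool.Agent.P.MP_ef347d_lc.Sp

open Matrix MeasureTheory ProbabilityTheory OrcOK

variable {m n j : ℕ}

lemma dot_nonneg {ι : Type} [Fintype ι] (x : ι → ℝ) : 0 ≤ x ⬝ᵥ x :=
  Finset.sum_nonneg fun _ _ => mul_self_nonneg _

lemma cs {ι : Type} [Fintype ι] (x y : ι → ℝ) : (x ⬝ᵥ y) ^ 2 ≤ (x ⬝ᵥ x) * (y ⬝ᵥ y) := by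
  have := Finset.sum_mul_sq_le_sq_mul_sq Finset.univ x y
  simpa only [dotProduct, sq] using this

lemma opT {B : Matrix (Fin m) (Fin j) ℝ} (hB : ∀ x, (B *ᵥ x) ⬝ᵥ (B *ᵥ x) ≤ x ⬝ᵥ x)
    (w : Fin m → ℝ) : (Bᵀ *ᵥ w) ⬝ᵥ (Bᵀ *ᵥ w) ≤ w ⬝ᵥ w := by
  set u := Bᵀ *ᵥ w with hu
  have h1 : u ⬝ᵥ u = w ⬝ᵥ (B *ᵥ u) := by
    rw [dotProduct_mulVec w B u, ← mulVec_transpose B w]
  have h2 := cs w (B *ᵥ u)
  have h3 := mul_le_mul_of_nonneg_left (hB u) (dot_nonneg w)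
  rw [← h1] at h2
  have h4 := dot_nonneg u
  have h5 := dot_nonneg w
  by_contra hc
  push Not at hc
  nlinarith

lemma K_norm {B : Matrix (Fin m) (Fin j) ℝ} (hB : ∀ x, (B *ᵥ x) ⬝ᵥ (B *ᵥ x) ≤ x ⬝ᵥ x)
    {c : Fin j → ℝ} (hc : c ⬝ᵥ c ≤ 1) {y : Fin j → ℝ} (hy : y ⬝ᵥ y = 1) :
    ((Bᵀ * B + vecMulVec c c) *ᵥ y) ⬝ᵥ ((Bᵀ * B + vecMulVec c c) *ᵥ y) ≤ 4 := by
  rw [add_mulVec, vmv, ← mulVec_mulVec]
  have h1 := (opT hB (B *ᵥ y)).trans (hB y)
  have h2 : ((c ⬝ᵥ y) • c) ⬝ᵥ ((c ⬝ᵥ y) • c) ≤ 1 := by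
    rw [smul_dotProduct, dotProduct_smul, smul_eq_mul, smul_eq_mul, ← mul_assoc, ← sq]
    have := cs c y
    rw [hy, mul_one] at this
    exact mul_le_one₀ (this.trans hc) (dot_nonneg c) hc
  rw [hy] at h1
  generalize Bᵀ *ᵥ (B *ᵥ y) = a at h1
  generalize (c ⬝ᵥ y) • c = b at h2
  have h3 := dot_nonneg (a - b)
  simp only [add_dotProduct, dotProduct_add, sub_dotProduct, dotProduct_sub] at h3 ⊢
  linarith

lemma inc_iso (hj : j ≤ n) (x y : Fin j → ℝ) : (inc n j *ᵥ x) ⬝ᵥ (inc n j *ᵥ y) = x ⬝ᵥ y := by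
  rw [dotProduct_mulVec, ← mulVec_transpose, mulVec_mulVec, incT_inc hj, one_mulVec]

/-- the centre with the columns from `j` on removed -/
def cut (j : ℕ) (D : Idx m n → ℝ) : Idx m n → ℝ :=
  mk (dA D * inc n j * (inc n j)ᵀ) (db D) (inc n j *ᵥ ((inc n j)ᵀ *ᵥ dc D))

lemma act_cut (hj : j ≤ n) (O : Matrix (Fin j) (Fin j) ℝ) (D : Idx m n → ℝ) :
    act (lift n O) (cut j D) = mk (dA D * inc n j * O * (inc n j)ᵀ) (db D)
      (inc n j *ᵥ (Oᵀ *ᵥ ((inc n j)ᵀ *ᵥ dc D))) := by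
  have h1 : dA (cut j D) = dA D * inc n j * (inc n j)ᵀ := rfl
  have h2 : db (cut j D) = db D := rfl
  have h3 : dc (cut j D) = inc n j *ᵥ ((inc n j)ᵀ *ᵥ dc D) := rfl
  rw [act, h1, h2, h3, Matrix.mul_assoc _ _ (lift n O), incT_lift' hj, lift_T, mulVec_mulVec,
    lift_inc hj, ← mulVec_mulVec, ← Matrix.mul_assoc]

lemma cut_dot (hj : j ≤ n) (O O' : Matrix (Fin j) (Fin j) ℝ) (D : Idx m n → ℝ) :
    act (lift n O) (cut j D) ⬝ᵥ act (lift n O') (cut j D) = db D ⬝ᵥ db D +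
      (Oᵀ * ((dA D * inc n j)ᵀ * (dA D * inc n j) +
        vecMulVec ((inc n j)ᵀ *ᵥ dc D) ((inc n j)ᵀ *ᵥ dc D)) * O').trace := by
  rw [act_cut hj, act_cut hj, dot_split]
  generalize dA D * inc n j = B
  generalize (inc n j)ᵀ *ᵥ dc D = c
  have h1 : ∀ A b c, dA (mk (m := m) (n := n) A b c) = A := fun _ _ _ => rfl
  have h2 : ∀ A b c, db (mk (m := m) (n := n) A b c) = b := fun _ _ _ => rfl
  have h3 : ∀ A b c, dc (mk (m := m) (n := n) A b c) = c := fun _ _ _ => rfl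
  simp only [h1, h2, h3]
  have e1 : ((B * O * (inc n j)ᵀ)ᵀ * (B * O' * (inc n j)ᵀ)).trace =
      (Oᵀ * (Bᵀ * B) * O').trace := by
    rw [transpose_mul, transpose_transpose, Matrix.mul_assoc, trace_mul_comm, Matrix.mul_assoc,
      Matrix.mul_assoc, incT_inc hj, Matrix.mul_one, transpose_mul]
    simp only [Matrix.mul_assoc]
  have e2 : (Oᵀ * vecMulVec c c * O').trace = (Oᵀ *ᵥ c) ⬝ᵥ (O'ᵀ *ᵥ c) := by
    rw [mul_vecMulVec, vecMulVec_mul, trace_vecMulVec, mulVec_transpose O']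
  rw [inc_iso hj, e1, Matrix.mul_add, Matrix.add_mul, trace_add, e2]
  ring

theorem shift_inv (hj : j ≤ n) (E : Set (Idx m n → ℝ))
    (hE : ∀ O : Matrix (Fin j) (Fin j) ℝ, O * Oᵀ = 1 → ∀ D ∈ E, act (lift n O) D ∈ E)
    {s : ℝ} (hs : 0 < s) (hs1 : s ≤ 1) {D : Idx m n → ℝ}
    (hA : ∀ x, (dA D *ᵥ x) ⬝ᵥ (dA D *ᵥ x) ≤ x ⬝ᵥ x) (hb : db D ⬝ᵥ db D ≤ 1)
    (hc : dc D ⬝ᵥ dc D ≤ 1) {l : ℝ} (hl : 0 < l) :
    gam (Idx m n) {Z | cut j D + s • Z ∈ E} ≤ ENNReal.ofReal l * gam (Idx m n) {Z | s • Z ∈ E} +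
      ENNReal.ofReal (Real.exp (3 * (s⁻¹ ^ 4 * (1 + Real.log j))) / l) := by
  obtain ⟨Ω, _, _, O, h1, h2⟩ := fam_trace j
  refine gam_mix (fun ω => s⁻¹ • act (lift n (O ω)) (cut j D)) _ hl (fun ω => ?_) ?_
  · have hm := act_mp (m := m) (lift_orth hj (h1 ω))
    refine le_trans (measure_mono ?_) (hm.measure_preimage_le _)
    intro Z hZ
    have := hE _ (h1 ω) _ hZ
    rw [act_add, act_smul] at this
    simp only [Set.mem_preimage, Set.mem_ofPred_eq, smul_add, smul_smul, mul_inv_cancel₀ hs.ne',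
      one_smul]
    rwa [add_comm]
  · set B := dA D * inc n j with hB
    set c := (inc n j)ᵀ *ᵥ dc D with hc'
    set K := Bᵀ * B + vecMulVec c c with hK
    have hB1 : ∀ x, (B *ᵥ x) ⬝ᵥ (B *ᵥ x) ≤ x ⬝ᵥ x := fun x => by
      rw [hB, ← mulVec_mulVec]
      exact (hA _).trans (inc_iso hj x x).le
    have hc1 : c ⬝ᵥ c ≤ 1 := (opT (fun x => (inc_iso hj x x).le) _).trans hc
    have hKT : Kᵀ = K := by
      rw [hK, transpose_add, transpose_mul, transpose_transpose, transpose_vecMulVec]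
    set r := s⁻¹ * s⁻¹ with hr
    have hr1 : 1 ≤ r := one_le_mul_of_one_le_of_one_le ((one_le_inv₀ hs).2 hs1)
      ((one_le_inv₀ hs).2 hs1)
    have hL : 0 ≤ Real.log j := Real.log_natCast_nonneg j
    have e : ∀ ω ω', (s⁻¹ • act (lift n (O ω)) (cut j D)) ⬝ᵥ (s⁻¹ • act (lift n (O ω')) (cut j D)) =
        r * (db D ⬝ᵥ db D) + ((r • ((O ω)ᵀ * K)) * O ω').trace := fun ω ω' => by
      rw [smul_dotProduct, dotProduct_smul, cut_dot hj, Matrix.smul_mul, trace_smul]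
      simp only [smul_eq_mul, hr]
      ring
    have hrow : ∀ ω i, (r • ((O ω)ᵀ * K)) i ⬝ᵥ (r • ((O ω)ᵀ * K)) i ≤ 4 * r ^ 2 := fun ω i => by
      have a1 : (r • ((O ω)ᵀ * K)) i = r • (K *ᵥ (O ω)ᵀ i) := by
        rw [← hKT, mulVec_transpose, hKT]; rfl
      have a2 : (O ω)ᵀ i ⬝ᵥ (O ω)ᵀ i = 1 := by
        have a3 : (O ω)ᵀ * O ω = 1 := mul_eq_one_comm.mp (h1 ω)
        have a4 : ((O ω)ᵀ * O ω) i i = 1 := by rw [a3, one_apply_eq]
        exact a4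
      rw [a1, smul_dotProduct, dotProduct_smul, smul_eq_mul, smul_eq_mul]
      have := K_norm hB1 hc1 a2
      nlinarith
    rw [Fintype.sum_prod_type]
    simp only [e, Real.exp_add, ← Finset.mul_sum]
    calc Real.exp (r * (db D ⬝ᵥ db D)) * ∑ ω, ∑ ω', Real.exp ((r • ((O ω)ᵀ * K)) * O ω').trace
        ≤ Real.exp r * ∑ _ω : Ω,
            (Fintype.card Ω * Real.exp (4 * r ^ 2 * (1 + Real.log j) / 2)) := by
          refine mul_le_mul (Real.exp_le_exp.2 (mul_le_of_le_one_right (by linarith) hb))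
            (Finset.sum_le_sum fun ω _ => h2 _ _ (by positivity) (hrow ω))
            (Finset.sum_nonneg fun _ _ => Finset.sum_nonneg fun _ _ => (Real.exp_pos _).le)
            (Real.exp_pos _).le
      _ = Fintype.card Ω * (Fintype.card Ω * Real.exp (r + 4 * r ^ 2 * (1 + Real.log j) / 2)) := by
          rw [Finset.sum_const, Finset.card_univ, nsmul_eq_mul, Real.exp_add]
          ring
      _ ≤ _ := by
          have a3 : s⁻¹ ^ 4 = r ^ 2 := by rw [hr]; ring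
          have a4 : r + 4 * r ^ 2 * (1 + Real.log j) / 2 ≤ 3 * (s⁻¹ ^ 4 * (1 + Real.log j)) := by
            rw [a3]
            nlinarith [mul_nonneg (sq_nonneg r) hL]
          gcongr

lemma cut_self (D : Idx m n → ℝ) : cut n D = D := by
  have h : inc n n = 1 := by
    ext i k
    simp [inc, one_apply, Fin.ext_iff]
  rw [cut, h, transpose_one, Matrix.mul_one, Matrix.mul_one, one_mulVec, one_mulVec]
  funext a
  rcases a with p | i | k <;> rfl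

lemma G1_cut (t : ℕ) (D W : Idx m n → ℝ) : G1 t (cut (nS m n t) D + W) = G1 t (D + W) := by
  have hd : nS m n t ≤ n := Nat.min_le_left _ _
  have key : ∀ (x : Fin n → ℝ) (k : Fin (nS m n t)),
      (inc n (nS m n t) *ᵥ ((inc n (nS m n t))ᵀ *ᵥ x)) (Fin.castLE hd k) = x (Fin.castLE hd k) := by
    intro x k
    rw [← incT_mulVec hd (inc n (nS m n t) *ᵥ _) k, mulVec_mulVec, incT_inc hd, one_mulVec,
      incT_mulVec hd]
  ext i k
  simp only [G1, of_apply]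
  split_ifs with h
  · congr 1
    show (dA D * inc n (nS m n t) * (inc n (nS m n t))ᵀ) ⟨i.val, h⟩ (Fin.castLE hd k) + _ =
      dA D ⟨i.val, h⟩ (Fin.castLE hd k) + _
    congr 1
    rw [← key (dA D ⟨i.val, h⟩) k, mulVec_transpose, ← vecMul_transpose, vecMul_vecMul,
      Matrix.mul_assoc]
    rfl
  · show (inc n (nS m n t) *ᵥ ((inc n (nS m n t))ᵀ *ᵥ dc D)) (Fin.castLE hd k) + _ =
      dc D (Fin.castLE hd k) + _
    rw [key]

lemma good_cut {t : ℕ} (hm : mS m n t = m) {D W : Idx m n → ℝ}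
    (h : Good orc t (cut (nS m n t) D + W)) : Good orc t (D + W) := by
  by_cases hn : nS m n t = n
  · rwa [hn, cut_self] at h
  · refine ⟨fun h' => absurd hm h'.ne, fun _ => ?_⟩
    obtain ⟨a, b, -⟩ := h.2 hm
    rw [G1_cut] at a b
    exact ⟨a, b, fun h' => absurd h' hn⟩

theorem fail_op {t : ℕ} (hm : 1 ≤ m) (hn : 1 ≤ n) {s : ℝ} (hs : 0 < s) (hs1 : s ≤ 1)
    {D : Idx m n → ℝ} (hA : ∀ x, (dA D *ᵥ x) ⬝ᵥ (dA D *ᵥ x) ≤ x ⬝ᵥ x) (hb : db D ⬝ᵥ db D ≤ 1)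
    (hc : dc D ⬝ᵥ dc D ≤ 1) (ht : 12 * (s⁻¹ ^ 4 * (1 + Real.log (m * n))) ≤ (t : ℝ))
    (h : gam (Idx m n) {Z | ¬ Good orc t (s • Z)} ≤ ENNReal.ofReal (10 * Real.exp (-(t : ℝ)))) :
    gam (Idx m n) {Z | ¬ Good orc t (D + s • Z)} ≤
      ENNReal.ofReal (11 * Real.exp (-(t : ℝ) / 4)) := by
  obtain ⟨j, hj, hj', hg⟩ : ∃ j, j ≤ n ∧ (mS m n t = m → j = nS m n t) ∧
      ∀ W, Good orc t (cut j D + W) → Good orc t (D + W) := by
    by_cases h0 : mS m n t = m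
    · exact ⟨nS m n t, Nat.min_le_left _ _, fun _ => rfl, fun W => good_cut h0⟩
    · exact ⟨n, le_rfl, fun h' => absurd h' h0, fun W => by rw [cut_self]; exact id⟩
  have h1 := shift_inv hj {X | ¬ Good orc t X}
    (fun O hO X hX hG => hX (good_act hj hO hj' hG)) hs hs1 hA hb hc (Real.exp_pos ((t : ℝ) / 2))
  refine le_trans (measure_mono fun Z hZ hG => hZ (hg _ hG)) (h1.trans ?_)
  have hmn : (n : ℝ) ≤ m * n := le_mul_of_one_le_left (by positivity) (by exact_mod_cast hm)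
  have hlog : Real.log j ≤ Real.log (m * n) := by
    rcases Nat.eq_zero_or_pos j with rfl | h0
    · simpa using Real.log_nonneg (le_trans (by exact_mod_cast hn) hmn)
    · exact Real.log_le_log (by exact_mod_cast h0) (le_trans (by exact_mod_cast hj) hmn)
  have hv : 3 * (s⁻¹ ^ 4 * (1 + Real.log j)) ≤ (t : ℝ) / 4 := by
    have : s⁻¹ ^ 4 * (1 + Real.log j) ≤ s⁻¹ ^ 4 * (1 + Real.log (m * n)) := by gcongr
    linarith
  have ht0 : (0 : ℝ) ≤ t := by positivity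
  calc ENNReal.ofReal (Real.exp (t / 2)) * gam (Idx m n) {Z | ¬ Good orc t (s • Z)} +
        ENNReal.ofReal (Real.exp (3 * (s⁻¹ ^ 4 * (1 + Real.log j))) / Real.exp (t / 2))
      ≤ ENNReal.ofReal (Real.exp (t / 2)) * ENNReal.ofReal (10 * Real.exp (-t)) +
        ENNReal.ofReal (Real.exp (t / 4) / Real.exp (t / 2)) := by gcongr
    _ ≤ _ := by
      rw [← ENNReal.ofReal_mul (by positivity), ← ENNReal.ofReal_add (by positivity) (by positivity)]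
      refine ENNReal.ofReal_le_ofReal ?_
      have a1 : Real.exp (t / 2) * Real.exp (-t) ≤ Real.exp (-t / 4) := by
        rw [← Real.exp_add]; exact Real.exp_le_exp.2 (by linarith)
      have a2 : Real.exp (t / 4) / Real.exp (t / 2) = Real.exp (-t / 4) := by
        rw [← Real.exp_sub]; congr 1; ring
      rw [a2]
      nlinarith

end Pool.Agent.P.MP_ef347d_lc.Sp
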